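import Pool.Agent.Helper75.AD.Coef2

/-! Packet COEF. -/

namespace Pool.Agent.Helper75.AD

open Pool.Agent.Helper88.AD
open Finset

theorem mu_apply (G : Finset (ℕ × ℕ)) (q : ℕ × ℕ) :
    (∑ p ∈ G, Finsupp.single p 1 : ℕ × ℕ →₀ ℕ) q = if q ∈ G then 1 else 0 := by
  rw [Finsupp.finset_sum_apply]
  simp only [Finsupp.single_apply]
  rw [Finset.sum_ite_eq']

theorem mu_inj {G H : Finset (ℕ × ℕ)}
    (h : (∑ p ∈ G, Finsupp.single p 1 : ℕ × ℕ →₀ ℕ) = ∑ p ∈ H, Finsupp.single p 1) : G = H := by
  ext q
  have h1 := DFunLike.congr_fun h q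
  rw [mu_apply, mu_apply] at h1
  by_cases ha : q ∈ G
  · by_cases hb : q ∈ H
    · exact ⟨fun _ => hb, fun _ => ha⟩
    · rw [if_pos ha, if_neg hb] at h1
      exact absurd h1 one_ne_zero
  · by_cases hb : q ∈ H
    · rw [if_neg ha, if_pos hb] at h1
      exact absurd h1.symm one_ne_zero
    · exact ⟨fun h => absurd h ha, fun h => absurd h hb⟩

theorem not_mem_vars_zero (q : ℕ × ℕ) : q ∉ (0 : RR).vars := by
  rw [← MvPolynomial.C_0, MvPolynomial.vars_C]
  exact Finset.notMem_empty _

theorem mem_vars_mm {i k : ℕ} {q : ℕ × ℕ} (h : q ∈ (mm i k).vars) :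
    (i = q.1 ∧ k = q.2) ∨ (k = q.1 ∧ i = q.2) := by
  unfold mm at h
  split_ifs at h with h1 h2
  · rw [MvPolynomial.vars_C] at h
    exact absurd h (Finset.notMem_empty _)
  · rw [MvPolynomial.vars_X, Finset.mem_singleton] at h
    rw [h]
    exact Or.inl ⟨rfl, rfl⟩
  · rw [MvPolynomial.vars_neg, MvPolynomial.vars_X, Finset.mem_singleton] at h
    rw [h]
    exact Or.inr ⟨rfl, rfl⟩

theorem mem_vars_rr {s : ℕ} {i j k l : Fin (s + 1)} {q : ℕ × ℕ} (h : q ∈ (rr i j k l).vars) :
    i = j ∧ k = l ∧ (((i : ℕ) = q.1 ∧ (k : ℕ) = q.2) ∨ ((k : ℕ) = q.1 ∧ (i : ℕ) = q.2)) := by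
  unfold rr at h
  split_ifs at h with h1 h2 h3
  · rw [MvPolynomial.vars_one] at h
    exact absurd h (Finset.notMem_empty _)
  · exact absurd h (not_mem_vars_zero q)
  · exact ⟨h3.1, h3.2, mem_vars_mm h⟩
  · exact absurd h (not_mem_vars_zero q)

theorem rr_ne_zero {s : ℕ} {i j k l : Fin (s + 1)} (h : rr i j k l ≠ 0) :
    (i < j ∧ k = j ∧ l = i) ∨ (i = j ∧ k = l) := by
  unfold rr at h
  split_ifs at h with h1 h2 h3
  · exact Or.inl ⟨h1, h2⟩
  · exact absurd rfl h
  · exact Or.inr h3
  · exact absurd rfl h

theorem cst_le {s d : ℕ} {z : Fin d → ℕ × ℕ} {σ : Equiv.Perm (Fin d)} (hA : Adm s z σ)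
    (t : Fin (d + 1)) : cst s z t ≤ s := by
  refine Fin.lastCases ?_ (fun x => ?_) t
  · rw [cst_last]
  · rw [cst_castSucc]
    have := hA.lt x
    have := hA.le x
    omega

theorem est_le {s d : ℕ} {z : Fin d → ℕ × ℕ} {σ : Equiv.Perm (Fin d)} (hA : Adm s z σ)
    (t : Fin (d + 1)) : est z σ t ≤ s := by
  refine Fin.lastCases ?_ (fun x => ?_) t
  · rw [est_last]
    exact Nat.zero_le _
  · rw [est_castSucc]
    exact hA.le _

theorem stmtCoef : StmtCoef := by
  intro s d z σ hA G hG hcov
  have hs2 : 2 ≤ s := by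
    obtain ⟨q, hq, _⟩ := hcov 0 (Nat.zero_le _)
    have := hG q hq
    omega
  have inj : Function.Injective z := by
    intro x y hxy
    rcases lt_trichotomy x y with h | h | h
    · have := hA.tail _ _ h
      rw [hxy] at this
      omega
    · exact h
    · have := hA.tail _ _ h
      rw [hxy] at this
      omega
  -- the special state
  let cs : Fin (d + 1) → Fin (s + 1) := fun t => ⟨cst s z t, Nat.lt_succ_of_le (cst_le hA t)⟩
  let es : Fin (d + 1) → Fin (s + 1) := fun t => ⟨est z σ t, Nat.lt_succ_of_le (est_le hA t)⟩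
  rw [trw_eq, MvPolynomial.coeff_sum]
  -- uniqueness
  have huniq : ∀ c e : Fin (d + 1) → Fin (s + 1),
      (c (Fin.last d) = e 0 ∧ e (Fin.last d) = c 0) →
      MvPolynomial.coeff (∑ q ∈ G, Finsupp.single q 1)
        (∏ x : Fin d, rr (c x.castSucc) (c x.succ) (e (σ.symm x).castSucc)
          (e (σ.symm x).succ)) ≠ 0 → c = cs ∧ e = es := by
    intro c e hce hne
    have hprod : (∏ x : Fin d, rr (c x.castSucc) (c x.succ) (e (σ.symm x).castSucc)
          (e (σ.symm x).succ)) ≠ 0 := by
      intro h
      rw [h, MvPolynomial.coeff_zero] at hne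
      exact hne rfl
    have hfac : ∀ x : Fin d, rr (c x.castSucc) (c x.succ) (e (σ.symm x).castSucc)
          (e (σ.symm x).succ) ≠ 0 := by
      intro x
      exact (Finset.prod_ne_zero_iff.1 hprod) x (Finset.mem_univ x)
    have hvar : ∀ q ∈ G, ∃ x : Fin d, q ∈ (rr (c x.castSucc) (c x.succ) (e (σ.symm x).castSucc)
          (e (σ.symm x).succ)).vars := by
      intro q hq
      have h1 : q ∈ (∏ x : Fin d, rr (c x.castSucc) (c x.succ) (e (σ.symm x).castSucc)
          (e (σ.symm x).succ)).vars := by
        rw [MvPolynomial.mem_vars]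
        refine ⟨_, MvPolynomial.mem_support_iff.2 hne, ?_⟩
        rw [Finsupp.mem_support_iff, mu_apply, if_pos hq]
        exact one_ne_zero
      have h2 := MvPolynomial.vars_prod (s := Finset.univ) (fun x : Fin d =>
        rr (c x.castSucc) (c x.succ) (e (σ.symm x).castSucc) (e (σ.symm x).succ)) h1
      rw [Finset.mem_biUnion] at h2
      obtain ⟨x, _, hx⟩ := h2
      exact ⟨x, hx⟩
    obtain ⟨u1, u2, u3⟩ := unique_state hA (fun t => (c t : ℕ)) (fun t => (e t : ℕ))
      (fun t => Nat.lt_succ_iff.1 (c t).isLt) (fun t => Nat.lt_succ_iff.1 (e t).isLt)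
      (by simp only [hce.1]) (by simp only [hce.2])
      (by
        intro x
        rcases rr_ne_zero (hfac x) with h | h
        · exact Or.inl ⟨h.1, by simp only [h.2.1], by simp only [h.2.2]⟩
        · exact Or.inr ⟨by simp only [h.1], by simp only [h.2]⟩)
      (by
        intro v hv
        obtain ⟨q, hq, hqv⟩ := hcov v hv
        obtain ⟨x, hx⟩ := hvar q hq
        obtain ⟨_, _, hx3⟩ := mem_vars_rr hx
        refine ⟨x, ?_⟩
        omega)
    constructor
    · funext t
      apply Fin.ext
      change (c t : ℕ) = cst s z t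
      refine Fin.lastCases ?_ (fun x => ?_) t
      · rw [cst_last]; exact u1
      · rw [cst_castSucc]; exact (u3 x).1
    · funext t
      apply Fin.ext
      change (e t : ℕ) = est z σ t
      refine Fin.lastCases ?_ (fun k => ?_) t
      · rw [est_last]; exact u2
      · rw [est_castSucc]
        have := (u3 (σ k)).2
        rw [Equiv.symm_apply_apply] at this
        exact this
  rw [Finset.sum_eq_single cs]
  · rw [MvPolynomial.coeff_sum, Finset.sum_eq_single es]
    · have hclose : cs (Fin.last d) = es 0 ∧ es (Fin.last d) = cs 0 := by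
        constructor
        · apply Fin.ext
          change cst s z (Fin.last d) = est z σ 0
          rw [cst_last, est_zero hA (by omega)]
        · apply Fin.ext
          change est z σ (Fin.last d) = cst s z 0
          rw [est_last, cst_zero hA (by omega)]
      rw [if_pos hclose]
      have hval : ∀ x : Fin d, rr (cs x.castSucc) (cs x.succ) (es (σ.symm x).castSucc)
          (es (σ.symm x).succ) = if (z x).1 + 2 ≤ (z x).2 then MvPolynomial.X (z x) else 1 := by
        intro x
        have v1 : (cs x.castSucc : ℕ) = (z x).1 := cst_castSucc s z x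
        have v2 : (cs x.succ : ℕ) = if (z x).2 = (z x).1 + 1 then (z x).1 + 1 else (z x).1 :=
          cst_succ hA x
        have v3 : (es (σ.symm x).castSucc : ℕ) = (z x).2 := by
          have := est_castSucc z σ (σ.symm x)
          rw [Equiv.apply_symm_apply] at this
          exact this
        have v4 : (es (σ.symm x).succ : ℕ) =
            if (z x).2 = (z x).1 + 1 then (z x).1 else (z x).2 := by
          have := est_succ hA (σ.symm x)
          rw [Equiv.apply_symm_apply] at this
          exact this
        have hlt := hA.lt x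
        unfold rr
        by_cases hb : (z x).2 = (z x).1 + 1
        · rw [if_pos hb] at v2 v4
          rw [if_pos (by rw [Fin.lt_def]; omega), if_pos, if_neg (by omega)]
          exact ⟨Fin.ext (by omega), Fin.ext (by omega)⟩
        · rw [if_neg hb] at v2 v4
          rw [if_neg (by rw [Fin.lt_def]; omega), if_pos, if_pos (by omega)]
          · rw [v1, v3]
            unfold mm
            rw [if_neg (by omega), if_pos hlt]
          · exact ⟨Fin.ext (by omega), Fin.ext (by omega)⟩
      simp only [hval]
      rw [← Finset.prod_filter]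
      have e1 : (Finset.univ.image z).filter (fun q => q.1 + 2 ≤ q.2) =
          (Finset.univ.filter fun x : Fin d => (z x).1 + 2 ≤ (z x).2).image z := by
        rw [Finset.filter_image]
      have e2 : (∏ x ∈ Finset.univ.filter (fun x : Fin d => (z x).1 + 2 ≤ (z x).2),
          (MvPolynomial.X (z x) : RR)) = MvPolynomial.monomial
            (∑ q ∈ (Finset.univ.image z).filter (fun q => q.1 + 2 ≤ q.2),
              Finsupp.single q 1) 1 := by
        rw [e1, MvPolynomial.monomial_sum_one]
        rw [Finset.prod_image (fun x _ y _ h => inj h)]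
        rfl
      rw [e2, MvPolynomial.coeff_monomial]
      by_cases hGe : G = (Finset.univ.image z).filter (fun q => q.1 + 2 ≤ q.2)
      · rw [if_pos hGe, if_pos]
        rw [← hGe]
      · rw [if_neg hGe, if_neg]
        intro h
        exact hGe (mu_inj h).symm
    · intro e _ hne
      by_contra hcon
      by_cases hce : cs (Fin.last d) = e 0 ∧ e (Fin.last d) = cs 0
      · rw [if_pos hce] at hcon
        exact hne (huniq cs e hce hcon).2
      · rw [if_neg hce, MvPolynomial.coeff_zero] at hcon
        exact hcon rfl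
    · intro h
      exact absurd (Finset.mem_univ _) h
  · intro c _ hne
    rw [MvPolynomial.coeff_sum]
    refine Finset.sum_eq_zero fun e _ => ?_
    by_contra hcon
    by_cases hce : c (Fin.last d) = e 0 ∧ e (Fin.last d) = c 0
    · rw [if_pos hce] at hcon
      exact hne (huniq c e hce hcon).1
    · rw [if_neg hce, MvPolynomial.coeff_zero] at hcon
      exact hcon rfl
  · intro h
    exact absurd (Finset.mem_univ _) h

end Pool.Agent.Helper75.AD
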