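import Pool.Agent.Helper88.AD.Stmts

/-! Packet COEF, part 1: path expansion of the trace weight. -/

namespace Pool.Agent.Helper75.AD

open Pool.Agent.Helper88.AD
open Finset

theorem ofFn_prod_apply {ι R : Type} [Fintype ι] [DecidableEq ι] [CommRing R] :
    ∀ (n : ℕ) (M : Fin n → Matrix ι ι R) (i j : ι), (List.ofFn M).prod i j =
      ∑ c : Fin (n + 1) → ι, if c 0 = i ∧ c (Fin.last n) = j then
        ∏ x : Fin n, M x (c x.castSucc) (c x.succ) else 0 := by
  intro n
  induction n with
  | zero =>
    intro M i j
    rw [← (Equiv.funUnique (Fin 1) ι).symm.sum_comp]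
    simp only [List.ofFn_zero, List.prod_nil, Matrix.one_apply, Finset.univ_eq_empty,
      Finset.prod_empty]
    have h : ∀ k : ι, ((Equiv.funUnique (Fin 1) ι).symm k) 0 = k := fun k => rfl
    have h' : ∀ k : ι, ((Equiv.funUnique (Fin 1) ι).symm k) (Fin.last 0) = k := fun k => rfl
    simp only [h, h']
    rw [Finset.sum_eq_single i]
    · by_cases hij : i = j
      · simp [hij]
      · simp [hij]
    · intro b _ hb
      simp [hb]
    · intro h
      exact absurd (Finset.mem_univ i) h
  | succ n ih =>
    intro M i j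
    rw [List.ofFn_succ, List.prod_cons, Matrix.mul_apply]
    rw [← (Fin.consEquiv (fun _ : Fin (n + 2) => ι)).sum_comp, Fintype.sum_prod_type]
    symm
    rw [Finset.sum_eq_single i]
    · simp only [ih, Finset.mul_sum]
      symm
      rw [Finset.sum_comm]
      refine Finset.sum_congr rfl fun c _ => ?_
      rw [Finset.sum_eq_single (c 0)]
      · have e1 : (Fin.consEquiv (fun _ : Fin (n + 2) => ι)) (i, c) 0 = i := rfl
        have e2 : (Fin.consEquiv (fun _ : Fin (n + 2) => ι)) (i, c) (Fin.last (n + 1)) =
            c (Fin.last n) := rfl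
        have e3 : ∀ x : Fin (n + 1), (Fin.consEquiv (fun _ : Fin (n + 2) => ι)) (i, c) x.succ =
            c x := fun x => rfl
        rw [e1, e2, Fin.prod_univ_succ]
        have e4 : (Fin.consEquiv (fun _ : Fin (n + 2) => ι)) (i, c) (Fin.castSucc 0) = i := rfl
        rw [e4, e3]
        have e5 : ∀ x : Fin n, (Fin.consEquiv (fun _ : Fin (n + 2) => ι)) (i, c)
            (Fin.castSucc x.succ) = c x.castSucc := by
          intro x
          rw [← Fin.succ_castSucc, e3]
        simp only [e5, e3]
        by_cases h : c (Fin.last n) = j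
        · simp [h]
        · simp [h]
      · intro k _ hk
        rw [if_neg (fun h => hk h.1.symm), mul_zero]
      · intro h
        exact absurd (Finset.mem_univ _) h
    · intro k _ hk
      refine Finset.sum_eq_zero fun c _ => ?_
      rw [if_neg]
      rintro ⟨h, _⟩
      exact hk h
    · intro h
      exact absurd (Finset.mem_univ _) h

/-- The entries of the `R`-matrix. -/
noncomputable def rr {s : ℕ} (i j k l : Fin (s + 1)) : RR :=
  if i < j then (if k = j ∧ l = i then 1 else 0)
  else if i = j ∧ k = l then mm i k else 0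

theorem sum_AA_BB {s : ℕ} (i j k l : Fin (s + 1)) :
    ∑ κ : KK s, AA s κ i j * BB s κ k l = rr i j k l := by
  rw [Fintype.sum_prod_type, Fintype.sum_bool]
  have h1 : ∑ y : Fin (s + 1) × Fin (s + 1), AA s (true, y) i j * BB s (true, y) k l =
      if i < j ∧ k = j ∧ l = i then 1 else 0 := by
    rw [Finset.sum_eq_single (i, j)]
    · unfold AA BB
      by_cases hij : i < j
      · simp only [if_true, hij, Matrix.single_apply, true_and, and_self]
        by_cases hkl : k = j ∧ l = i
        · rw [if_pos hkl, if_pos ⟨hkl.1.symm, hkl.2.symm⟩, mul_one]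
        · rw [if_neg hkl, if_neg (fun h => hkl ⟨h.1.symm, h.2.symm⟩), mul_zero]
      · simp [hij]
    · rintro ⟨a, b⟩ _ hab
      unfold AA
      by_cases h : a < b
      · simp only [if_true, h, Matrix.single_apply]
        rw [if_neg, zero_mul]
        rintro ⟨rfl, rfl⟩
        exact hab rfl
      · simp [h]
    · intro h
      exact absurd (Finset.mem_univ _) h
  have h2 : ∑ y : Fin (s + 1) × Fin (s + 1), AA s (false, y) i j * BB s (false, y) k l =
      if i = j ∧ k = l then mm i k else 0 := by
    rw [Finset.sum_eq_single (i, k)]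
    · unfold AA BB
      simp only [Bool.false_eq_true, if_false, Matrix.single_apply, true_and]
      by_cases hij : i = j
      · by_cases hkl : k = l
        · simp [hij, hkl]
        · simp [hkl]
      · simp [hij]
    · rintro ⟨a, b⟩ _ hab
      unfold AA BB
      simp only [Bool.false_eq_true, if_false, Matrix.single_apply]
      by_cases ha : a = i
      · have hb : b ≠ k := fun h => hab (by rw [ha, h])
        rw [if_neg (c := b = k ∧ b = l) (fun h => hb h.1), mul_zero]
      · rw [if_neg (c := a = i ∧ a = j) (fun h => ha h.1), zero_mul]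
    · intro h
      exact absurd (Finset.mem_univ _) h
  rw [h1, h2]
  unfold rr
  by_cases hij : i < j
  · have hne : i ≠ j := hij.ne
    simp [hij, hne]
  · simp [hij]

theorem trw_eq {s d : ℕ} (σ : Equiv.Perm (Fin d)) :
    trw (AA s) (BB s) (lr (fun _ => true) σ) =
      ∑ c : Fin (d + 1) → Fin (s + 1), ∑ e : Fin (d + 1) → Fin (s + 1),
        if c (Fin.last d) = e 0 ∧ e (Fin.last d) = c 0 then
          ∏ x : Fin d, rr (c x.castSucc) (c x.succ) (e (σ.symm x).castSucc) (e (σ.symm x).succ)
        else 0 := by
  unfold trw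
  have h1 : ∀ κ : Fin d → KK s,
      (((lr (fun _ => true) σ).map fun p : Pt d => if p.2 then AA s (κ p.1) else
        BB s (κ p.1)).prod).trace =
      ∑ c : Fin (d + 1) → Fin (s + 1), ∑ e : Fin (d + 1) → Fin (s + 1),
        if c (Fin.last d) = e 0 ∧ e (Fin.last d) = c 0 then
          (∏ x : Fin d, AA s (κ x) (c x.castSucc) (c x.succ)) *
            ∏ x : Fin d, BB s (κ (σ x)) (e x.castSucc) (e x.succ) else 0 := by
    intro κ
    unfold lr
    rw [List.map_append, List.prod_append, List.map_ofFn, List.map_ofFn]
    have e1 : ((fun p : Pt d => if p.2 = true then AA s (κ p.1) else BB s (κ p.1)) ∘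
        fun i : Fin d => (i, true)) = fun i => AA s (κ i) := by
      funext i
      simp
    have e2 : ((fun p : Pt d => if p.2 = true then AA s (κ p.1) else BB s (κ p.1)) ∘
        fun k : Fin d => (σ k, !true)) = fun i => BB s (κ (σ i)) := by
      funext i
      simp
    rw [e1, e2]
    simp only [Matrix.trace, Matrix.diag_apply, Matrix.mul_apply, ofFn_prod_apply]
    -- ∑ i, ∑ j, (∑ c, if ..) * (∑ e, if ..)
    simp only [Finset.sum_mul_sum]
    have e3 : ∀ i j : Fin (s + 1), ∀ c e : Fin (d + 1) → Fin (s + 1),
        ((if c 0 = i ∧ c (Fin.last d) = j then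
            ∏ x : Fin d, AA s (κ x) (c x.castSucc) (c x.succ) else 0) *
          if e 0 = j ∧ e (Fin.last d) = i then
            ∏ x : Fin d, BB s (κ (σ x)) (e x.castSucc) (e x.succ) else 0) =
        if c 0 = i ∧ e 0 = j then (if c (Fin.last d) = e 0 ∧ e (Fin.last d) = c 0 then
          (∏ x : Fin d, AA s (κ x) (c x.castSucc) (c x.succ)) *
            ∏ x : Fin d, BB s (κ (σ x)) (e x.castSucc) (e x.succ) else 0) else 0 := by
      intro i j c e
      by_cases h : c 0 = i ∧ e 0 = j
      · obtain ⟨rfl, rfl⟩ := h
        by_cases h' : c (Fin.last d) = e 0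
        · by_cases h'' : e (Fin.last d) = c 0
          · simp [h', h'']
          · simp [h'']
        · simp [h']
      · rw [if_neg h]
        by_cases h' : c 0 = i
        · have h'' : e 0 ≠ j := fun h3 => h ⟨h', h3⟩
          rw [if_neg (c := e 0 = j ∧ e (Fin.last d) = i) (fun h3 => h'' h3.1), mul_zero]
        · rw [if_neg (c := c 0 = i ∧ c (Fin.last d) = j) (fun h3 => h' h3.1), zero_mul]
    simp only [e3]
    have e4 : ∀ (g : (Fin (d + 1) → Fin (s + 1)) → (Fin (d + 1) → Fin (s + 1)) → RR),
        ∑ i : Fin (s + 1), ∑ j : Fin (s + 1), ∑ c : Fin (d + 1) → Fin (s + 1),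
          ∑ e : Fin (d + 1) → Fin (s + 1), (if c 0 = i ∧ e 0 = j then g c e else 0) =
        ∑ c, ∑ e, g c e := by
      intro g
      have : ∀ i : Fin (s + 1), ∑ j : Fin (s + 1), ∑ c : Fin (d + 1) → Fin (s + 1),
          ∑ e : Fin (d + 1) → Fin (s + 1), (if c 0 = i ∧ e 0 = j then g c e else 0) =
          ∑ c : Fin (d + 1) → Fin (s + 1), ∑ e : Fin (d + 1) → Fin (s + 1),
            if c 0 = i then g c e else 0 := by
        intro i
        rw [Finset.sum_comm]
        refine Finset.sum_congr rfl fun c _ => ?_
        rw [Finset.sum_comm]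
        refine Finset.sum_congr rfl fun e _ => ?_
        rw [Finset.sum_eq_single (e 0)]
        · simp
        · intro b _ hb
          rw [if_neg (fun h => hb h.2.symm)]
        · intro h
          exact absurd (Finset.mem_univ _) h
      simp only [this]
      rw [Finset.sum_comm]
      refine Finset.sum_congr rfl fun c _ => ?_
      rw [Finset.sum_comm]
      refine Finset.sum_congr rfl fun e _ => ?_
      rw [Finset.sum_eq_single (c 0)]
      · simp
      · intro b _ hb
        rw [if_neg (fun h => hb h.symm)]
      · intro h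
        exact absurd (Finset.mem_univ _) h
    exact e4 _
  simp only [h1]
  rw [Finset.sum_comm]
  refine Finset.sum_congr rfl fun c _ => ?_
  rw [Finset.sum_comm]
  refine Finset.sum_congr rfl fun e _ => ?_
  by_cases h : c (Fin.last d) = e 0 ∧ e (Fin.last d) = c 0
  · simp only [if_pos h]
    have e5 : ∀ κ : Fin d → KK s, (∏ x : Fin d, AA s (κ x) (c x.castSucc) (c x.succ)) *
            ∏ x : Fin d, BB s (κ (σ x)) (e x.castSucc) (e x.succ) =
        ∏ x : Fin d, (AA s (κ x) (c x.castSucc) (c x.succ) *
          BB s (κ x) (e (σ.symm x).castSucc) (e (σ.symm x).succ)) := by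
      intro κ
      rw [Finset.prod_mul_distrib]
      congr 1
      rw [← Equiv.prod_comp σ (fun x => BB s (κ x) (e (σ.symm x).castSucc) (e (σ.symm x).succ))]
      refine Finset.prod_congr rfl fun x _ => ?_
      rw [Equiv.symm_apply_apply]
    simp only [e5]
    have e6 := Finset.prod_univ_sum (fun _ : Fin d => (Finset.univ : Finset (KK s)))
      (fun x κ => AA s κ (c x.castSucc) (c x.succ) *
          BB s κ (e (σ.symm x).castSucc) (e (σ.symm x).succ))
    rw [Fintype.piFinset_univ] at e6
    rw [← e6]
    refine Finset.prod_congr rfl fun x _ => ?_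
    exact sum_AA_BB _ _ _ _
  · simp only [if_neg h, Finset.sum_const_zero]

end Pool.Agent.Helper75.AD
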