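import Pool.Agent.Helper75.AD.Coef1

/-! Packet COEF, part 2: the combinatorics. -/

namespace Pool.Agent.Helper75.AD

open Pool.Agent.Helper88.AD
open Finset

/-- Uniqueness of the state. -/
theorem unique_state {s d : ℕ} {z : Fin d → ℕ × ℕ} {σ : Equiv.Perm (Fin d)} (hA : Adm s z σ)
    (C E : Fin (d + 1) → ℕ) (hCs : ∀ t, C t ≤ s) (hEs : ∀ t, E t ≤ s)
    (h1 : C (Fin.last d) = E 0) (h2 : E (Fin.last d) = C 0)
    (step : ∀ x : Fin d, (C x.castSucc < C x.succ ∧ E (σ.symm x).castSucc = C x.succ ∧
        E (σ.symm x).succ = C x.castSucc) ∨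
      (C x.castSucc = C x.succ ∧ E (σ.symm x).castSucc = E (σ.symm x).succ))
    (cover : ∀ v ≤ s, ∃ x : Fin d, C x.castSucc = v ∨ E (σ.symm x).castSucc = v) :
    C (Fin.last d) = s ∧ E (Fin.last d) = 0 ∧
      ∀ y : Fin d, C y.castSucc = (z y).1 ∧ E (σ.symm y).castSucc = (z y).2 := by
  have monoC : Monotone C := by
    rw [Fin.monotone_iff_le_succ]
    intro i
    rcases step i with h | h
    · exact h.1.le
    · exact h.1.le
  have antiE : Antitone E := by
    rw [Fin.antitone_iff_succ_le]
    intro k
    have h := step (σ k)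
    rw [Equiv.symm_apply_apply] at h
    rcases h with h | h
    · rw [h.2.1, h.2.2]; exact h.1.le
    · exact h.2.ge
  have L1 : C 0 = 0 := by
    obtain ⟨x, h | h⟩ := cover 0 (Nat.zero_le _)
    · have := monoC (Fin.zero_le x.castSucc)
      omega
    · have := antiE (Fin.le_last (σ.symm x).castSucc)
      omega
  have L2 : C (Fin.last d) = s := by
    obtain ⟨x, h | h⟩ := cover s le_rfl
    · have := monoC (Fin.le_last x.castSucc)
      have := hCs (Fin.last d)
      omega
    · have := antiE (Fin.zero_le (σ.symm x).castSucc)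
      have := hEs 0
      omega
  -- comparison lemmas
  have cmpC : ∀ x y : Fin d, x < y → C x.succ ≤ C y.castSucc := by
    intro x y hxy
    exact monoC (Fin.succ_le_castSucc_iff.2 hxy)
  have cmpC' : ∀ x y : Fin d, x ≤ y → C x.castSucc ≤ C y.castSucc := by
    intro x y hxy
    exact monoC (Fin.castSucc_le_castSucc_iff.2 hxy)
  have cmpE : ∀ x y : Fin d, x < y → E y.castSucc ≤ E x.succ := by
    intro x y hxy
    exact antiE (Fin.succ_le_castSucc_iff.2 hxy)
  have cmpE' : ∀ x y : Fin d, x ≤ y → E y.castSucc ≤ E x.castSucc := by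
    intro x y hxy
    exact antiE (Fin.castSucc_le_castSucc_iff.2 hxy)
  have L3 : ∀ x : Fin d, C x.castSucc < C x.succ →
      C x.succ = C x.castSucc + 1 ∧ E (σ.symm x).castSucc = C x.succ ∧
        E (σ.symm x).succ = C x.castSucc := by
    intro x hx
    have hs := step x
    have hj : E (σ.symm x).castSucc = C x.succ ∧ E (σ.symm x).succ = C x.castSucc := by
      rcases hs with h | h
      · exact h.2
      · omega
    refine ⟨?_, hj⟩
    by_contra hne
    have hlt : C x.castSucc + 1 < C x.succ := by omega
    have hle := hCs x.succ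
    obtain ⟨y, h | h⟩ := cover (C x.castSucc + 1) (by omega)
    · rcases lt_or_ge x y with hxy | hxy
      · have := cmpC x y hxy
        omega
      · have := cmpC' y x hxy
        omega
    · rcases lt_or_ge (σ.symm x) (σ.symm y) with hxy | hxy
      · have := cmpE _ _ hxy
        omega
      · have := cmpE' _ _ hxy
        omega
  have L4 : ∀ i, ∃ x : Fin d, i < s → C x.castSucc = i ∧ C x.succ = i + 1 := by
    intro i
    by_cases hi : i < s
    · classical
      have hex : ∃ t : ℕ, ∃ h : t < d + 1, i < C ⟨t, h⟩ := by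
        refine ⟨d, Nat.lt_succ_self d, ?_⟩
        have : (⟨d, Nat.lt_succ_self d⟩ : Fin (d + 1)) = Fin.last d := rfl
        rw [this, L2]
        exact hi
      obtain ⟨ht, hCt⟩ := Nat.find_spec hex
      have hmin : ∀ m < Nat.find hex, ¬ ∃ h : m < d + 1, i < C ⟨m, h⟩ :=
        fun m hm => Nat.find_min hex hm
      generalize Nat.find hex = t at ht hCt hmin
      rcases Nat.eq_zero_or_pos t with h0 | h0
      · subst h0
        have : (⟨0, ht⟩ : Fin (d + 1)) = 0 := rfl
        rw [this, L1] at hCt
        omega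
      · obtain ⟨m, rfl⟩ : ∃ m, t = m + 1 := ⟨t - 1, by omega⟩
        have hm : m < d := by omega
        refine ⟨⟨m, hm⟩, fun _ => ?_⟩
        have e1 : (⟨m, hm⟩ : Fin d).succ = ⟨m + 1, ht⟩ := rfl
        have e2 : (⟨m, hm⟩ : Fin d).castSucc = ⟨m, by omega⟩ := rfl
        have h3 : ¬ i < C (⟨m, hm⟩ : Fin d).castSucc := by
          intro hlt
          exact hmin m (by omega) ⟨by omega, by rw [e2] at hlt; exact hlt⟩
        rw [← e1] at hCt
        have h4 := L3 ⟨m, hm⟩ (by omega)
        omega
    · rcases Nat.eq_zero_or_pos d with hd | hd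
      · subst hd
        obtain ⟨x, _⟩ := cover s le_rfl
        exact x.elim0
      · exact ⟨⟨0, hd⟩, fun h => absurd h hi⟩
  choose X hX using L4
  have hXj : ∀ i < s, C (X i).castSucc = i ∧ C (X i).succ = i + 1 ∧
      E (σ.symm (X i)).castSucc = i + 1 ∧ E (σ.symm (X i)).succ = i := by
    intro i hi
    obtain ⟨ha, hb⟩ := hX i hi
    have h := L3 (X i) (by omega)
    refine ⟨ha, hb, ?_, ?_⟩ <;> omega
  have L5 : ∀ i j, i < j → j < s → (z (X i)).1 < (z (X j)).1 ∧ (z (X i)).2 < (z (X j)).2 := by
    intro i j hij hj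
    obtain ⟨a1, a2, a3, a4⟩ := hXj i (by omega)
    obtain ⟨b1, b2, b3, b4⟩ := hXj j hj
    have hlt : X i < X j := by
      by_contra hcon
      have := cmpC' _ _ (not_lt.1 hcon)
      omega
    have hlt2 : σ.symm (X j) < σ.symm (X i) := by
      by_contra hcon
      have := cmpE' _ _ (not_lt.1 hcon)
      omega
    have t1 := hA.tail _ _ hlt
    have t2 := hA.head _ _ hlt2
    rw [Equiv.apply_symm_apply, Equiv.apply_symm_apply] at t2
    omega
  have L6 : ∀ i, i < s → i ≤ (z (X i)).1 := by
    intro i
    induction i with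
    | zero => intro _; exact Nat.zero_le _
    | succ i ih =>
      intro hi
      have := ih (by omega)
      have := (L5 i (i + 1) (by omega) hi).1
      omega
  have L6' : ∀ k, k < s → (z (X (s - 1 - k))).2 ≤ s - k := by
    intro k
    induction k with
    | zero => intro _; exact hA.le _
    | succ k ih =>
      intro hk
      have := ih (by omega)
      have := (L5 (s - 1 - (k + 1)) (s - 1 - k) (by omega) (by omega)).2
      omega
  have L7 : ∀ i < s, (z (X i)).1 = i ∧ (z (X i)).2 = i + 1 := by
    intro i hi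
    have h3 := L6 i hi
    have h4 := L6' (s - 1 - i) (by omega)
    have h5 : s - 1 - (s - 1 - i) = i := by omega
    rw [h5] at h4
    have h6 := hA.lt (X i)
    omega
  have inj : ∀ x y : Fin d, (z x).1 = (z y).1 → (z x).2 = (z y).2 → x = y := by
    intro x y ha hb
    rcases lt_trichotomy x y with h | h | h
    · have := hA.tail _ _ h
      omega
    · exact h
    · have := hA.tail _ _ h
      omega
  refine ⟨L2, by omega, fun y => ?_⟩
  have hy1 := hA.lt y
  have hy2 := hA.le y
  by_cases hb : (z y).2 = (z y).1 + 1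
  · have ha : (z y).1 < s := by omega
    obtain ⟨q1, q2⟩ := L7 _ ha
    have hy : y = X (z y).1 := inj _ _ q1.symm (by omega)
    obtain ⟨a1, a2, a3, a4⟩ := hXj _ ha
    rw [← hy] at a1 a3
    exact ⟨a1, by omega⟩
  · have ha : (z y).1 < s := by omega
    obtain ⟨q1, q2⟩ := L7 _ ha
    obtain ⟨a1, a2, a3, a4⟩ := hXj _ ha
    have c1 : C y.castSucc ≤ (z y).1 := by
      have hlt : y < X (z y).1 := by
        rcases lt_trichotomy y (X (z y).1) with h | h | h
        · exact h
        · exfalso
          rw [← h] at q2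
          omega
        · exfalso
          have := hA.tail _ _ h
          omega
      have := cmpC' _ _ hlt.le
      omega
    have c2 : (z y).1 ≤ C y.castSucc := by
      rcases Nat.eq_zero_or_pos (z y).1 with h0 | h0
      · omega
      · obtain ⟨r1, r2⟩ := L7 ((z y).1 - 1) (by omega)
        obtain ⟨b1, b2, b3, b4⟩ := hXj ((z y).1 - 1) (by omega)
        have hlt : X ((z y).1 - 1) < y := by
          rcases lt_trichotomy (X ((z y).1 - 1)) y with h | h | h
          · exact h
          · exfalso
            rw [h] at r1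
            omega
          · exfalso
            have := hA.tail _ _ h
            omega
        have := cmpC _ _ hlt
        omega
    have c3 : E (σ.symm y).castSucc ≤ (z y).2 := by
      by_cases hbs : (z y).2 < s
      · obtain ⟨r1, r2⟩ := L7 (z y).2 hbs
        obtain ⟨b1, b2, b3, b4⟩ := hXj (z y).2 hbs
        have hlt : σ.symm (X (z y).2) < σ.symm y := by
          rcases lt_trichotomy (σ.symm (X (z y).2)) (σ.symm y) with h | h | h
          · exact h
          · exfalso
            have := σ.symm.injective h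
            rw [this] at r1
            omega
          · exfalso
            have := hA.head _ _ h
            rw [Equiv.apply_symm_apply, Equiv.apply_symm_apply] at this
            omega
        have := cmpE _ _ hlt
        omega
      · have := hEs (σ.symm y).castSucc
        omega
    have c4 : (z y).2 ≤ E (σ.symm y).castSucc := by
      obtain ⟨r1, r2⟩ := L7 ((z y).2 - 1) (by omega)
      obtain ⟨b1, b2, b3, b4⟩ := hXj ((z y).2 - 1) (by omega)
      have hlt : σ.symm y < σ.symm (X ((z y).2 - 1)) := by
        rcases lt_trichotomy (σ.symm y) (σ.symm (X ((z y).2 - 1))) with h | h | h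
        · exact h
        · exfalso
          have := σ.symm.injective h
          rw [← this] at r1
          omega
        · exfalso
          have := hA.head _ _ h
          rw [Equiv.apply_symm_apply, Equiv.apply_symm_apply] at this
          omega
      have := cmpE' _ _ hlt.le
      omega
    exact ⟨by omega, by omega⟩

/-- The tail colours. -/
def cst (s : ℕ) {d : ℕ} (z : Fin d → ℕ × ℕ) : Fin (d + 1) → ℕ :=
  Fin.snoc (α := fun _ => ℕ) (fun x => (z x).1) s

/-- The head colours. -/
def est {d : ℕ} (z : Fin d → ℕ × ℕ) (σ : Equiv.Perm (Fin d)) : Fin (d + 1) → ℕ :=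
  Fin.snoc (α := fun _ => ℕ) (fun k => (z (σ k)).2) 0

theorem cst_castSucc (s : ℕ) {d : ℕ} (z : Fin d → ℕ × ℕ) (x : Fin d) :
    cst s z x.castSucc = (z x).1 := by
  unfold cst
  rw [Fin.snoc_castSucc]

theorem cst_last (s : ℕ) {d : ℕ} (z : Fin d → ℕ × ℕ) : cst s z (Fin.last d) = s := by
  unfold cst
  rw [Fin.snoc_last]

theorem est_castSucc {d : ℕ} (z : Fin d → ℕ × ℕ) (σ : Equiv.Perm (Fin d)) (x : Fin d) :
    est z σ x.castSucc = (z (σ x)).2 := by
  unfold est
  rw [Fin.snoc_castSucc]

theorem est_last {d : ℕ} (z : Fin d → ℕ × ℕ) (σ : Equiv.Perm (Fin d)) :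
    est z σ (Fin.last d) = 0 := by
  unfold est
  rw [Fin.snoc_last]

theorem cst_succ {s d : ℕ} {z : Fin d → ℕ × ℕ} {σ : Equiv.Perm (Fin d)} (hA : Adm s z σ)
    (x : Fin d) : cst s z x.succ = if (z x).2 = (z x).1 + 1 then (z x).1 + 1 else (z x).1 := by
  have hx1 := hA.lt x
  have hx2 := hA.le x
  by_cases hd : x.val + 1 < d
  · have e : x.succ = (⟨x.val + 1, hd⟩ : Fin d).castSucc := rfl
    have hxy : x < (⟨x.val + 1, hd⟩ : Fin d) := by
      rw [Fin.lt_def]; exact Nat.lt_succ_self _
    have hnext : ∀ w : Fin d, x < w → (⟨x.val + 1, hd⟩ : Fin d) ≤ w := by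
      intro w hw
      rw [Fin.lt_def] at hw
      rw [Fin.le_def]
      exact hw
    rw [e, cst_castSucc]
    generalize (⟨x.val + 1, hd⟩ : Fin d) = y at hxy hnext
    have hy1 := hA.lt y
    have hy2 := hA.le y
    have t1 := hA.tail _ _ hxy
    by_cases hb : (z x).2 = (z x).1 + 1
    · rw [if_pos hb]
      by_cases hs : (z x).1 + 1 < s
      · obtain ⟨w, hw⟩ := hA.bone _ hs
        have hw1 : (z w).1 = (z x).1 + 1 := by rw [hw]
        have hw2 : (z w).2 = (z x).1 + 1 + 1 := by rw [hw]
        have hxw : x < w := by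
          rcases lt_trichotomy x w with h | h | h
          · exact h
          · exfalso
            rw [← h] at hw1
            omega
          · exfalso
            have := hA.tail _ _ h
            omega
        rcases (hnext w hxw).lt_or_eq with h | h
        · have := hA.tail _ _ h
          omega
        · rw [h]
          omega
      · omega
    · rw [if_neg hb]
      obtain ⟨w, hw⟩ := hA.bone (z x).1 (by omega)
      have hw1 : (z w).1 = (z x).1 := by rw [hw]
      have hw2 : (z w).2 = (z x).1 + 1 := by rw [hw]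
      have hxw : x < w := by
        rcases lt_trichotomy x w with h | h | h
        · exact h
        · exfalso
          rw [← h] at hw2
          omega
        · exfalso
          have := hA.tail _ _ h
          omega
      rcases (hnext w hxw).lt_or_eq with h | h
      · have := hA.tail _ _ h
        omega
      · rw [h]
        omega
  · have hlast : ∀ w : Fin d, ¬ x < w := by
      intro w hw
      rw [Fin.lt_def] at hw
      have := w.isLt
      omega
    have e : x.succ = Fin.last d := by
      apply Fin.ext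
      rw [Fin.val_succ, Fin.val_last]
      have := x.isLt
      omega
    rw [e, cst_last]
    by_cases hb : (z x).2 = (z x).1 + 1
    · rw [if_pos hb]
      by_contra hs
      obtain ⟨w, hw⟩ := hA.bone ((z x).1 + 1) (by omega)
      have hw1 : (z w).1 = (z x).1 + 1 := by rw [hw]
      apply hlast w
      rcases lt_trichotomy x w with h | h | h
      · exact h
      · exfalso
        rw [← h] at hw1
        omega
      · exfalso
        have := hA.tail _ _ h
        omega
    · exfalso
      obtain ⟨w, hw⟩ := hA.bone (z x).1 (by omega)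
      have hw1 : (z w).1 = (z x).1 := by rw [hw]
      have hw2 : (z w).2 = (z x).1 + 1 := by rw [hw]
      apply hlast w
      rcases lt_trichotomy x w with h | h | h
      · exact h
      · exfalso
        rw [← h] at hw2
        omega
      · exfalso
        have := hA.tail _ _ h
        omega

theorem est_succ {s d : ℕ} {z : Fin d → ℕ × ℕ} {σ : Equiv.Perm (Fin d)} (hA : Adm s z σ)
    (k : Fin d) : est z σ k.succ =
      if (z (σ k)).2 = (z (σ k)).1 + 1 then (z (σ k)).1 else (z (σ k)).2 := by
  have hx1 := hA.lt (σ k)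
  have hx2 := hA.le (σ k)
  have key1 : (z (σ k)).2 = (z (σ k)).1 + 1 → 0 < (z (σ k)).1 →
      ∃ q, k < q ∧ (z (σ q)).2 = (z (σ k)).1 := by
    intro hb h0
    obtain ⟨w, hw⟩ := hA.bone ((z (σ k)).1 - 1) (by omega)
    have hw1 : (z w).1 = (z (σ k)).1 - 1 := by rw [hw]
    have hw2 : (z w).2 = (z (σ k)).1 := by rw [hw]; simp only; omega
    refine ⟨σ.symm w, ?_, by rw [Equiv.apply_symm_apply]; exact hw2⟩
    rcases lt_trichotomy k (σ.symm w) with h | h | h
    · exact h
    · exfalso
      rw [h, Equiv.apply_symm_apply] at h0 hb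
      rw [h, Equiv.apply_symm_apply] at hw1
      omega
    · exfalso
      have := hA.head _ _ h
      rw [Equiv.apply_symm_apply] at this
      omega
  have key2 : (z (σ k)).2 ≠ (z (σ k)).1 + 1 → ∃ q, k < q ∧ (z (σ q)).2 = (z (σ k)).2 := by
    intro hb
    obtain ⟨w, hw⟩ := hA.bone ((z (σ k)).2 - 1) (by omega)
    have hw1 : (z w).1 = (z (σ k)).2 - 1 := by rw [hw]
    have hw2 : (z w).2 = (z (σ k)).2 := by rw [hw]; simp only; omega
    refine ⟨σ.symm w, ?_, by rw [Equiv.apply_symm_apply]; exact hw2⟩
    rcases lt_trichotomy k (σ.symm w) with h | h | h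
    · exact h
    · exfalso
      rw [h, Equiv.apply_symm_apply] at hw1 hx1 hb
      omega
    · exfalso
      have := hA.head _ _ h
      rw [Equiv.apply_symm_apply] at this
      omega
  by_cases hd : k.val + 1 < d
  · have e : k.succ = (⟨k.val + 1, hd⟩ : Fin d).castSucc := rfl
    have hxy : k < (⟨k.val + 1, hd⟩ : Fin d) := by
      rw [Fin.lt_def]; exact Nat.lt_succ_self _
    have hnext : ∀ w : Fin d, k < w → (⟨k.val + 1, hd⟩ : Fin d) ≤ w := by
      intro w hw
      rw [Fin.lt_def] at hw
      rw [Fin.le_def]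
      exact hw
    rw [e, est_castSucc]
    generalize (⟨k.val + 1, hd⟩ : Fin d) = y at hxy hnext
    have hy1 := hA.lt (σ y)
    have hy2 := hA.le (σ y)
    have t1 := hA.head _ _ hxy
    by_cases hb : (z (σ k)).2 = (z (σ k)).1 + 1
    · rw [if_pos hb]
      obtain ⟨q, hq1, hq2⟩ := key1 hb (by omega)
      rcases (hnext q hq1).lt_or_eq with h | h
      · have := hA.head _ _ h
        omega
      · rw [h]
        omega
    · rw [if_neg hb]
      obtain ⟨q, hq1, hq2⟩ := key2 hb
      rcases (hnext q hq1).lt_or_eq with h | h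
      · have := hA.head _ _ h
        omega
      · rw [h]
        omega
  · have hlast : ∀ w : Fin d, ¬ k < w := by
      intro w hw
      rw [Fin.lt_def] at hw
      have := w.isLt
      omega
    have e : k.succ = Fin.last d := by
      apply Fin.ext
      rw [Fin.val_succ, Fin.val_last]
      have := k.isLt
      omega
    rw [e, est_last]
    by_cases hb : (z (σ k)).2 = (z (σ k)).1 + 1
    · rw [if_pos hb]
      by_contra hs
      obtain ⟨q, hq1, _⟩ := key1 hb (by omega)
      exact hlast q hq1
    · exfalso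
      obtain ⟨q, hq1, _⟩ := key2 hb
      exact hlast q hq1

theorem cst_zero {s d : ℕ} {z : Fin d → ℕ × ℕ} {σ : Equiv.Perm (Fin d)} (hA : Adm s z σ)
    (hs : 0 < s) : cst s z 0 = 0 := by
  obtain ⟨w, hw⟩ := hA.bone 0 hs
  have hd : 0 < d := lt_of_le_of_lt (Nat.zero_le _) w.isLt
  have e : (0 : Fin (d + 1)) = (⟨0, hd⟩ : Fin d).castSucc := rfl
  rw [e, cst_castSucc]
  rcases (show (⟨0, hd⟩ : Fin d) ≤ w from by rw [Fin.le_def]; exact Nat.zero_le _).lt_or_eq
    with h | h
  · have := hA.tail _ _ h
    rw [hw] at this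
    simp only at this
    omega
  · rw [h, hw]

theorem est_zero {s d : ℕ} {z : Fin d → ℕ × ℕ} {σ : Equiv.Perm (Fin d)} (hA : Adm s z σ)
    (hs : 0 < s) : est z σ 0 = s := by
  obtain ⟨w, hw⟩ := hA.bone (s - 1) (by omega)
  have hd : 0 < d := lt_of_le_of_lt (Nat.zero_le _) w.isLt
  have e : (0 : Fin (d + 1)) = (⟨0, hd⟩ : Fin d).castSucc := rfl
  have hw2 : (z w).2 = s := by rw [hw]; simp only; omega
  rw [e, est_castSucc]
  have hle := hA.le (σ ⟨0, hd⟩)
  rcases (show (⟨0, hd⟩ : Fin d) ≤ σ.symm w from by
    rw [Fin.le_def]; exact Nat.zero_le _).lt_or_eq with h | h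
  · have := hA.head _ _ h
    rw [Equiv.apply_symm_apply] at this
    omega
  · rw [h, Equiv.apply_symm_apply]
    exact hw2

end Pool.Agent.Helper75.AD
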